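import Pool.Agent.H65.CF.T6
import Pool.Agent.H51.CN.PZ2
import Pool.Agent.H26.CN.VK
import Pool.Agent.H42.CN.VGR

/-!
# Complete family, module ZKE: the projected mollified value of the principal form
-/

set_option autoImplicit false

open MeasureTheory Set Filter
open scoped Real

namespace Pool.Agent.H39.CFH

open Pool.Agent.H31.CN Pool.Agent.H65.AD Pool.Agent.H91.CF Pool.Agent.H65.CF

/-! ### The principal form -/

theorem q1_one (D : ℕ) : (Q1 D).1 = 1 := by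
  unfold Q1
  split_ifs <;> rfl

theorem q1_dsc (D : ℕ) (hD : D % 4 = 0 ∨ D % 4 = 3) : dsc (Q1 D) = D := by
  unfold Q1 dsc
  split_ifs with h
  · simp only
    omega
  · simp only
    omega

theorem q1_fd (D : ℕ) (hD : D % 4 = 0 ∨ D % 4 = 3) : Q1 D ∈ FD D :=
  ⟨by rw [q1_one]; exact one_pos, q1_dsc D hD⟩

theorem four_val (Q : QF) (v : ℤ × ℤ) :
    4 * Q.1 * val Q v = (2 * Q.1 * v.1 + Q.2.1 * v.2) ^ 2 + dsc Q * v.2 ^ 2 := by
  unfold val dsc
  ring

theorem q1_pos (D : ℕ) (hD0 : 0 < D) (hD : D % 4 = 0 ∨ D % 4 = 3) (v : ℤ × ℤ) (hv : v ≠ 0) :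
    1 ≤ val (Q1 D) v := by
  have h := four_val (Q1 D) v
  rw [q1_one, q1_dsc D hD] at h
  have hD1 : (0 : ℤ) < D := by exact_mod_cast hD0
  by_cases h2 : v.2 = 0
  · have h1 : v.1 ≠ 0 := fun h1 => hv (Prod.ext h1 h2)
    have h3 : 0 < v.1 ^ 2 := by positivity
    rw [h2] at h
    nlinarith
  · have h3 : 0 < (D : ℤ) * v.2 ^ 2 := by positivity
    nlinarith [sq_nonneg (2 * 1 * v.1 + (Q1 D).2.1 * v.2)]

theorem q1_zero (D : ℕ) : val (Q1 D) 0 = 0 := by simp [val]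

/-! ### Summability -/

theorem summ1 (D f m : ℕ) (hf : 0 < f) (hD0 : 0 < D) (hD : D % 4 = 0 ∨ D % 4 = 3)
    (hm : 0 < m) :
    Summable (fun v : ℤ × ℤ => Vk (val (Q1 D) v / (m * f * Real.sqrt (dsc (Q1 D)))) *
        nu m (Q1 D) v / Real.sqrt (val (Q1 D) v)) := by
  obtain ⟨C, hC, h1, _⟩ := Pool.Agent.H26.CN.pf_VK
  obtain ⟨K, hK, h2⟩ := Pool.Agent.H51.CN.nu_le m (Q1 D)
  have hD1 : (0 : ℝ) < D := by exact_mod_cast hD0
  have hm1 : (0 : ℝ) < m := by exact_mod_cast hm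
  have hf1 : (0 : ℝ) < f := by exact_mod_cast hf
  have hd : ((dsc (Q1 D) : ℤ) : ℝ) = D := by rw [q1_dsc D hD]; simp
  rw [hd]
  have hs : 0 < (m : ℝ) * f * Real.sqrt D := by
    have := Real.sqrt_pos.2 hD1
    positivity
  obtain ⟨_, h3⟩ := Pool.Agent.H42.CN.pf_VGR D (6 / (m * f * Real.sqrt D)) hD0 (by positivity)
  have h4 := ((h3 _ (q1_fd D hD)).1.mul_left (C * K))
  refine Summable.of_norm_bounded h4 fun v => ?_
  by_cases hv : v = 0
  · rw [hv, q1_zero]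
    simp only [Int.cast_zero, Real.sqrt_zero, div_zero, norm_zero]
    positivity
  · have h5 := q1_pos D hD0 hD v hv
    have h6 : (1 : ℝ) ≤ (val (Q1 D) v : ℝ) := by exact_mod_cast h5
    have h7 : 0 < (val (Q1 D) v : ℝ) / (m * f * Real.sqrt D) := div_pos (by linarith) hs
    have h8 := h1 _ h7
    have h9 : (1 : ℝ) ≤ Real.sqrt (val (Q1 D) v) := Real.one_le_sqrt.2 h6
    rw [Real.norm_eq_abs, abs_div, abs_mul, Nat.abs_cast, abs_of_nonneg (Real.sqrt_nonneg _)]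
    refine (div_le_self (by positivity) h9).trans ?_
    calc _ ≤ (C * Real.exp (-(6 * ((val (Q1 D) v : ℝ) /
          (m * f * Real.sqrt D))))) * K :=
            mul_le_mul h8 (h2 v) (Nat.cast_nonneg _) (by positivity)
      _ = C * K * Real.exp (-(6 / (m * f * Real.sqrt D) * (val (Q1 D) v : ℝ))) := by
        rw [show 6 * ((val (Q1 D) v : ℝ) / (m * f * Real.sqrt D)) =
          6 / (m * f * Real.sqrt D) * (val (Q1 D) v : ℝ) by ring]
        ring

theorem summ_om (S : Finset ℕ) (c : ℕ → ℝ) (D f : ℕ) (hf : 0 < f) (hD0 : 0 < D)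
    (hD : D % 4 = 0 ∨ D % 4 = 3) (hS : ∀ m ∈ S, 0 < m) :
    Summable (om S c f (Q1 D)) := by
  have h1 : om S c f (Q1 D) = fun v => ∑ m ∈ S, c m *
      (Vk (val (Q1 D) v / (m * f * Real.sqrt (dsc (Q1 D)))) * nu m (Q1 D) v /
        Real.sqrt (val (Q1 D) v)) := by
    funext v
    unfold om
    rw [Finset.sum_div]
    refine Finset.sum_congr rfl fun m _ => ?_
    ring
  rw [h1]
  exact summable_sum fun m hm => (summ1 D f m hf hD0 hD (hS m hm)).mul_left _

/-! ### The conductor -/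

theorem rd_pos (f : ℕ) : 0 < rd f :=
  Finset.prod_pos fun _ hp => (Nat.prime_of_mem_primeFactors hp).pos

theorem rd_pf (f : ℕ) : (rd f).primeFactors = f.primeFactors :=
  Nat.primeFactors_prod fun _ hp => Nat.prime_of_mem_primeFactors hp

theorem rd_sq (f : ℕ) : Squarefree (rd f) := by
  unfold rd
  refine Finset.squarefree_prod_of_pairwise_isCoprime ?_ ?_
  · intro p hp q hq hpq
    exact Nat.coprime_iff_isRelPrime.1 ((Nat.coprime_primes (Nat.prime_of_mem_primeFactors hp)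
      (Nat.prime_of_mem_primeFactors hq)).2 hpq)
  · intro p hp
    exact (Nat.prime_of_mem_primeFactors hp).squarefree

theorem f1_prod (f : ℕ) (hf : 0 < f) :
    f1 f = ∏ p ∈ f.primeFactors, p ^ (f.factorization p - 1) := by
  have h1 : f = (∏ p ∈ f.primeFactors, p ^ (f.factorization p - 1)) * rd f := by
    conv_lhs => rw [← Nat.prod_factorization_pow_eq_self hf.ne']
    rw [Nat.prod_factorization_eq_prod_primeFactors, rd, ← Finset.prod_mul_distrib]
    refine Finset.prod_congr rfl fun p hp => ?_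
    have : f.factorization p ≠ 0 := by
      have := (Nat.prime_of_mem_primeFactors hp).factorization_pos_of_dvd hf.ne'
        (Nat.dvd_of_mem_primeFactors hp)
      omega
    rw [← pow_succ, Nat.sub_add_cancel (Nat.one_le_iff_ne_zero.2 this)]
  exact Nat.div_eq_of_eq_mul_left (rd_pos f) h1

theorem f1_rd (f : ℕ) : f1 f * rd f = f :=
  Nat.div_mul_cancel (Nat.prod_primeFactors_dvd f)

theorem f1_pos (f : ℕ) (hf : 0 < f) : 0 < f1 f :=
  Nat.pos_of_ne_zero fun h => by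
    have := f1_rd f
    rw [h, zero_mul] at this
    omega

theorem f1_dvd (f : ℕ) (hf : 0 < f) (y : ℤ)
    (h : ∀ p ∈ f.primeFactors, (p : ℤ) ^ (f.factorization p - 1) ∣ y) : (f1 f : ℤ) ∣ y := by
  rw [f1_prod f hf]
  push_cast
  refine Finset.prod_dvd_of_coprime ?_ h
  intro p hp q hq hpq
  exact IsCoprime.pow (Nat.isCoprime_iff_coprime.2
    ((Nat.coprime_primes (Nat.prime_of_mem_primeFactors hp)
      (Nat.prime_of_mem_primeFactors hq)).2 hpq))

theorem f1_split (f : ℕ) (hf : 0 < f) (p : ℕ) (hp : p ∈ f.primeFactors) :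
    ∃ u : ℕ, f1 f = p ^ (f.factorization p - 1) * u ∧ Nat.Coprime p u := by
  refine ⟨∏ q ∈ f.primeFactors.erase p, q ^ (f.factorization q - 1), ?_, ?_⟩
  · rw [f1_prod f hf, Finset.mul_prod_erase _ (fun q => q ^ (f.factorization q - 1)) hp]
  · refine Nat.Coprime.prod_right fun q hq => ?_
    rw [Finset.mem_erase] at hq
    exact Nat.Coprime.pow_right _ ((Nat.coprime_primes (Nat.prime_of_mem_primeFactors hp)
      (Nat.prime_of_mem_primeFactors hq.2)).2 (Ne.symm hq.1))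

theorem fac_pos (f : ℕ) (hf : 0 < f) (p : ℕ) (hp : p ∈ f.primeFactors) :
    f.factorization p - 1 + 1 = f.factorization p := by
  have := (Nat.prime_of_mem_primeFactors hp).factorization_pos_of_dvd hf.ne'
    (Nat.dvd_of_mem_primeFactors hp)
  omega

theorem f1_dvd1 (f : ℕ) (hf : 0 < f) (p : ℕ) (hp : p ∈ f.primeFactors) (y : ℤ) :
    (p : ℤ) ^ (f.factorization p - 1) ∣ (f1 f : ℤ) * y := by
  obtain ⟨u, hu, _⟩ := f1_split f hf p hp
  rw [hu]
  push_cast
  exact Dvd.dvd.mul_right (Dvd.intro _ rfl) _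

theorem f1_dvd2 (f : ℕ) (hf : 0 < f) (p : ℕ) (hp : p ∈ f.primeFactors) (y : ℤ) :
    (p : ℤ) ^ (f.factorization p) ∣ (f1 f : ℤ) * y ↔ (p : ℤ) ∣ y := by
  obtain ⟨u, hu, hc⟩ := f1_split f hf p hp
  rw [hu, ← fac_pos f hf p hp, pow_succ, Nat.add_sub_cancel]
  push_cast
  rw [mul_assoc]
  have hp0 : (p : ℤ) ^ (f.factorization p - 1) ≠ 0 :=
    pow_ne_zero _ (by exact_mod_cast (Nat.prime_of_mem_primeFactors hp).ne_zero)
  rw [mul_dvd_mul_iff_left hp0]
  exact ⟨fun h => IsCoprime.dvd_of_dvd_mul_left (Nat.isCoprime_iff_coprime.2 hc) h,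
    fun h => Dvd.dvd.mul_left h _⟩

/-! ### The kernel -/

theorem kern_eq (hNPF : T_NPF) (f D : ℕ) (hf : 0 < f) (hD : D % 4 = 0 ∨ D % 4 = 3)
    (x y : ℤ) : kern f (Q1 D) (1, 0) (x, f1 f * y) =
      ∏ p ∈ (rd f).primeFactors, (if (p : ℤ) ∣ val (Qp f D) (x, y) then 0 else
        (if (p : ℤ) ∣ y then 1 else 0) - 1 / (npD f p D : ℝ)) := by
  unfold kern
  rw [rd_pf]
  refine Finset.prod_congr rfl fun p hp => ?_
  have hpp := Nat.prime_of_mem_primeFactors hp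
  have e1 : val (Q1 D) (1, 0) = 1 := by
    unfold val
    rw [q1_one]
    ring
  have e2 : dtm (1, 0) (x, (f1 f : ℤ) * y) = (f1 f : ℤ) * y := by
    unfold dtm
    ring
  have e3 : val (Q1 D) (x, (f1 f : ℤ) * y) = val (Qp f D) (x, y) := by
    unfold val Qp
    rw [q1_one]
    ring
  have e4 : npQ f p (Q1 D) = npD f p D :=
    (hNPF f D p hf hD hpp (Nat.dvd_of_mem_primeFactors hp)).1
  have e5 : ¬ (p : ℤ) ∣ 1 := fun h => hpp.one_lt.ne'
    (Nat.dvd_one.1 (by exact_mod_cast h))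
  unfold kp
  rw [e1, e2, e3, e4]
  by_cases h1 : (p : ℤ) ∣ val (Qp f D) (x, y)
  · rw [if_pos (Or.inr h1), if_pos h1]
  · rw [if_neg (fun h => h.elim e5 h1), if_neg h1, if_pos (f1_dvd1 f hf p hp y)]
    by_cases h2 : (p : ℤ) ∣ y
    · rw [if_pos ((f1_dvd2 f hf p hp y).2 h2), if_pos h2]
    · rw [if_neg (fun h => h2 ((f1_dvd2 f hf p hp y).1 h)), if_neg h2]

theorem kern_zero (f D : ℕ) (hf : 0 < f) (x y : ℤ) (h : ¬ (f1 f : ℤ) ∣ y) :
    kern f (Q1 D) (1, 0) (x, y) = 0 := by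
  have h1 : ∃ p ∈ f.primeFactors, ¬ (p : ℤ) ^ (f.factorization p - 1) ∣ y := by
    by_contra h2
    push Not at h2
    exact h (f1_dvd f hf y h2)
  obtain ⟨p, hp, h2⟩ := h1
  unfold kern
  refine Finset.prod_eq_zero hp ?_
  have e2 : dtm (1, 0) (x, y) = y := by
    unfold dtm
    ring
  unfold kp
  rw [e2]
  split_ifs with h3 h4
  · rfl
  · exact absurd ((pow_dvd_pow (p : ℤ) (Nat.sub_le _ 1)).trans h4) h2
  · simp

open Classical in
theorem kern_sum (hKPR : T_KPR) (hNPF : T_NPF) (f D : ℕ) (hf : 0 < f)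
    (hD : D % 4 = 0 ∨ D % 4 = 3) (x y : ℤ) : kern f (Q1 D) (1, 0) (x, f1 f * y) =
      ∑ d ∈ (rd f).divisors, ∑ j ∈ ju f d D, cfd f d D *
        (if ((rd f / d : ℕ) : ℤ) ∣ y ∧ (d : ℤ) ∣ x - j * y then 1 else 0) := by
  rw [kern_eq hNPF f D hf hD]
  have h1 := hKPR (rd f) (Qp f D) (fun p => (npD f p D : ℝ)) x y (rd_sq f) isCoprime_one_left
    (by
      intro p hp
      rw [rd_pf] at hp
      have h2 := (hNPF f D p hf hD (Nat.prime_of_mem_primeFactors hp)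
        (Nat.dvd_of_mem_primeFactors hp)).2.2
      show (npD f p D : ℝ) = _
      rw [h2]
      push_cast
      rfl)
  rw [h1]
  refine Finset.sum_congr rfl fun d _ => ?_
  rw [← Finset.mul_sum]
  unfold cfd
  congr 1
  by_cases h3 : ((rd f / d : ℕ) : ℤ) ∣ y
  · rw [if_pos h3]
    unfold ju
    rw [Finset.sum_boole, Finset.filter_filter]
    congr 2
    refine Finset.filter_congr fun j _ => ?_
    exact and_congr_right fun _ => (and_iff_right h3).symm
  · rw [if_neg h3]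
    symm
    refine Finset.sum_eq_zero fun j _ => ?_
    rw [if_neg (fun h => h3 h.1)]

/-! ### Change of variables -/

/-- the first map -/
def ph (a : ℤ) (u : ℤ × ℤ) : ℤ × ℤ := (u.1, a * u.2)

/-- the second map -/
def ps (d j g : ℤ) (w : ℤ × ℤ) : ℤ × ℤ := (d * w.1 + j * g * w.2, g * w.2)

theorem ph_inj {a : ℤ} (ha : a ≠ 0) : Function.Injective (ph a) := by
  intro u v h
  have h1 := congrArg Prod.fst h
  have h2 := congrArg Prod.snd h
  exact Prod.ext h1 (mul_left_cancel₀ ha h2)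

theorem ps_inj {d j g : ℤ} (hd : d ≠ 0) (hg : g ≠ 0) : Function.Injective (ps d j g) := by
  intro u v h
  have h2 : u.2 = v.2 := mul_left_cancel₀ hg (congrArg Prod.snd h)
  have h1 : d * u.1 + j * g * u.2 = d * v.1 + j * g * v.2 := congrArg Prod.fst h
  rw [h2] at h1
  exact Prod.ext (mul_left_cancel₀ hd (add_right_cancel h1)) h2

theorem ps_range {d j g : ℤ} (u : ℤ × ℤ) (h : g ∣ u.2 ∧ d ∣ u.1 - j * u.2) :
    u ∈ Set.range (ps d j g) := by
  obtain ⟨⟨y, hy⟩, x, hx⟩ := h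
  refine ⟨(x, y), Prod.ext ?_ hy.symm⟩
  show d * x + j * g * y = u.1
  rw [← hx, hy]
  ring

theorem ps_mem {d j g : ℤ} (w : ℤ × ℤ) :
    g ∣ (ps d j g w).2 ∧ d ∣ (ps d j g w).1 - j * (ps d j g w).2 := by
  refine ⟨Dvd.intro _ rfl, w.1, ?_⟩
  unfold ps
  ring

theorem dsc_qs (f d j D : ℕ) (hd : d ∣ rd f) :
    dsc (Qs f d j D) = (f : ℤ) ^ 2 * dsc (Q1 D) := by
  have h1 : (d : ℤ) * ((rd f / d : ℕ) : ℤ) = rd f := by
    rw [← Nat.cast_mul, Nat.mul_div_cancel' hd]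
  have h2 : (f1 f : ℤ) * rd f = f := by
    rw [← Nat.cast_mul, f1_rd]
  rw [← h2, ← h1]
  unfold dsc Qs val Qp
  rw [q1_one]
  ring

theorem val_qs (f d j D : ℕ) (w : ℤ × ℤ) :
    val (Qs f d j D) w =
      val (Q1 D) (ph (f1 f) (ps d j ((rd f / d : ℕ) : ℤ) w)) := by
  unfold Qs val Qp ph ps
  rw [q1_one]
  ring

theorem om_eq (hPRM : T_PRM) (f D : ℕ) (hf : 0 < f) (S : Finset ℕ) (c : ℕ → ℝ)
    (hS : ∀ m ∈ S, Squarefree m ∧ Nat.Coprime m f) (d j : ℕ) (hd : d ∣ rd f) (w : ℤ × ℤ) :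
    om S c f (Q1 D) (ph (f1 f) (ps d j ((rd f / d : ℕ) : ℤ) w)) =
      (∑ m ∈ S, c m * Vk (val (Qs f d j D) w / (m * Real.sqrt (dsc (Qs f d j D)))) *
        nu m (Qs f d j D) w) / Real.sqrt (val (Qs f d j D) w) := by
  unfold om
  rw [val_qs]
  congr 1
  refine Finset.sum_congr rfl fun m hm => ?_
  have h1 : Real.sqrt (dsc (Qs f d j D)) = f * Real.sqrt (dsc (Q1 D)) := by
    rw [dsc_qs f d j D hd]
    push_cast
    rw [Real.sqrt_mul (by positivity), Real.sqrt_sq (Nat.cast_nonneg f)]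
  have h2 : nu m (Qs f d j D) w =
      nu m (Q1 D) (ph (f1 f) (ps d j ((rd f / d : ℕ) : ℤ) w)) := by
    have h3 : (d : ℤ) * ((rd f / d : ℕ) : ℤ) = rd f := by
      rw [← Nat.cast_mul, Nat.mul_div_cancel' hd]
    have h4 : (f1 f : ℤ) * rd f = f := by
      rw [← Nat.cast_mul, f1_rd]
    have key := (hPRM m (Q1 D) (Qs f d j D) d (j * ((rd f / d : ℕ) : ℤ)) 0
      ((f1 f : ℤ) * ((rd f / d : ℕ) : ℤ)) (hS m hm).1 ?_ ?_).1 w
    · rw [key]
      congr 1
      unfold ph ps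
      refine Prod.ext ?_ ?_
      · rfl
      · simp only
        ring
    · have e : (d : ℤ) * ((f1 f : ℤ) * ((rd f / d : ℕ) : ℤ)) -
          j * ((rd f / d : ℕ) : ℤ) * 0 = f := by
        rw [← h4, ← h3]
        ring
      rw [e]
      exact Nat.isCoprime_iff_coprime.2 (hS m hm).2.symm
    · intro v
      rw [val_qs]
      congr 1
      unfold ph ps
      refine Prod.ext ?_ ?_
      · rfl
      · simp only
        ring
  rw [h1, h2, mul_assoc (m : ℝ)]

open Classical in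
theorem pf_ZKE (hKPR : T_KPR) (hNPF : T_NPF) (hPRM : T_PRM) : T_ZKE := by
  intro f D hf hD0 hD S c hS
  have hf1 : (f1 f : ℤ) ≠ 0 := by exact_mod_cast (f1_pos f hf).ne'
  have hsum : Summable (om S c f (Q1 D)) :=
    summ_om S c D f hf hD0 hD fun m hm => Nat.pos_of_ne_zero (hS m hm).1.ne_zero
  have hsum1 : Summable (fun u => om S c f (Q1 D) (ph (f1 f) u)) :=
    hsum.comp_injective (ph_inj hf1)
  -- first step
  have e1 : Zk f S c (Q1 D) =
      ∑' u : ℤ × ℤ, om S c f (Q1 D) (ph (f1 f) u) * kern f (Q1 D) (1, 0) (ph (f1 f) u) := by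
    unfold Zk
    symm
    refine Function.Injective.tsum_eq (ph_inj hf1)
      (f := fun v => om S c f (Q1 D) v * kern f (Q1 D) (1, 0) v) ?_
    intro v hv
    by_contra h
    apply hv
    have h1 : ¬ (f1 f : ℤ) ∣ v.2 := by
      rintro ⟨y, hy⟩
      exact h ⟨(v.1, y), Prod.ext rfl hy.symm⟩
    show om S c f (Q1 D) v * kern f (Q1 D) (1, 0) v = 0
    rw [show v = (v.1, v.2) from rfl, kern_zero f D hf v.1 v.2 h1, mul_zero]
  have e2 : ∀ u : ℤ × ℤ,
      om S c f (Q1 D) (ph (f1 f) u) * kern f (Q1 D) (1, 0) (ph (f1 f) u) =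
      ∑ d ∈ (rd f).divisors, ∑ j ∈ ju f d D, cfd f d D *
        (if ((rd f / d : ℕ) : ℤ) ∣ u.2 ∧ (d : ℤ) ∣ u.1 - j * u.2 then
          om S c f (Q1 D) (ph (f1 f) u) else 0) := by
    intro u
    have h1 : kern f (Q1 D) (1, 0) (ph (f1 f) u) = _ :=
      kern_sum hKPR hNPF f D hf hD u.1 u.2
    rw [h1, Finset.mul_sum]
    refine Finset.sum_congr rfl fun d _ => ?_
    rw [Finset.mul_sum]
    refine Finset.sum_congr rfl fun j _ => ?_
    by_cases h2 : ((rd f / d : ℕ) : ℤ) ∣ u.2 ∧ (d : ℤ) ∣ u.1 - j * u.2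
    · rw [if_pos h2, if_pos h2]
      ring
    · rw [if_neg h2, if_neg h2]
      ring
  have hs2 : ∀ d j : ℕ, Summable (fun u : ℤ × ℤ => cfd f d D *
        (if ((rd f / d : ℕ) : ℤ) ∣ u.2 ∧ (d : ℤ) ∣ u.1 - j * u.2 then
          om S c f (Q1 D) (ph (f1 f) u) else 0)) := by
    intro d j
    refine Summable.mul_left _ ?_
    have := hsum1.indicator {u : ℤ × ℤ | ((rd f / d : ℕ) : ℤ) ∣ u.2 ∧ (d : ℤ) ∣ u.1 - j * u.2}
    refine this.congr fun u => ?_
    rw [Set.indicator_apply]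
    rfl
  rw [e1, tsum_congr e2, Summable.tsum_finsetSum (fun d _ => summable_sum fun j _ => hs2 d j)]
  refine Finset.sum_congr rfl fun d hd => ?_
  rw [Nat.mem_divisors] at hd
  have hd0 : (d : ℤ) ≠ 0 := by
    have := Nat.pos_of_dvd_of_pos hd.1 (rd_pos f)
    exact_mod_cast this.ne'
  have hg0 : ((rd f / d : ℕ) : ℤ) ≠ 0 := by
    have := Nat.div_pos (Nat.le_of_dvd (rd_pos f) hd.1) (Nat.pos_of_dvd_of_pos hd.1 (rd_pos f))
    exact_mod_cast this.ne'
  rw [Summable.tsum_finsetSum (fun j _ => hs2 d j), Finset.mul_sum]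
  refine Finset.sum_congr rfl fun j _ => ?_
  rw [tsum_mul_left]
  congr 1
  unfold Zc
  rw [← Function.Injective.tsum_eq (ps_inj (d := (d : ℤ)) (j := (j : ℤ)) hd0 hg0)]
  · refine tsum_congr fun w => ?_
    rw [if_pos (ps_mem w)]
    exact om_eq hPRM f D hf S c hS d j hd.1 w
  · intro u hu
    refine ps_range u ?_
    by_contra h
    exact hu (if_neg h)

end Pool.Agent.H39.CFH
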